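import Mathlib
import Pool.Agent.Lib.MP_8dbdcc_co.AA.All

/-!
# Almost all large arcs in `𝔽_p²` lie on a conic

For all large primes `p` and all `m ≥ p ^ (6 / 7)`, all sets of `m` points of `𝔽_p²` without three
collinear points, except for a proportion of at most `exp (- m ^ 3 / (400 p ^ 2))`, are contained in a
conic.
-/

set_option autoImplicit false

open Finset

namespace Pool.Agent.Results.MP_8dbdcc_co.AlmostAllArcs

/-- `A ⊆ 𝔽_p²` has no three collinear points: every line contains at most two points of `A`. -/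
def NoThreeCollinear (p : ℕ) (A : Finset (ZMod p × ZMod p)) : Prop :=
  ∀ a b c : ZMod p, (a, b) ≠ (0, 0) → (A.filter (fun q => a * q.1 + b * q.2 = c)).card ≤ 2

/-- `A` is contained in the zero set of a nonzero polynomial of total degree at most two. -/
def OnConic (p : ℕ) (A : Finset (ZMod p × ZMod p)) : Prop :=
  ∃ f : MvPolynomial (Fin 2) (ZMod p), f ≠ 0 ∧ f.totalDegree ≤ 2 ∧
    ∀ q ∈ A, MvPolynomial.eval ![q.1, q.2] f = 0

/-- For all large primes `p` and all `m ≥ p ^ (6 / 7)`: the number of sets of `m` points of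
`𝔽_p²` without three collinear points that are contained in no conic is at most
`exp (- m ^ 3 / (400 p ^ 2))` times the number of all sets of `m` points without three collinear
points. -/
theorem result : ∃ p₀ : ℕ, ∀ p : ℕ, p.Prime → p₀ ≤ p → ∀ m : ℕ, (p : ℝ) ^ (6 / 7 : ℝ) ≤ m →
    Real.exp ((m : ℝ) ^ 3 / (400 * p ^ 2)) *
        ({A : Finset (ZMod p × ZMod p) |
          A.card = m ∧ NoThreeCollinear p A ∧ ¬ OnConic p A}.ncard : ℝ) ≤
      ({A : Finset (ZMod p × ZMod p) | A.card = m ∧ NoThreeCollinear p A}.ncard : ℝ) :=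
  Pool.Agent.Lib.MP_8dbdcc_co.AA.hMain

end Pool.Agent.Results.MP_8dbdcc_co.AlmostAllArcs
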