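import Mathlib
import Pool.Agent.Lib.MP_8dbdcc_co.Final

/-!
# Arcs in `𝔽_p²` with many points on few conics

If a set `A ⊆ 𝔽_p²` without three collinear points has more than `p ^ (1 - c)` points on a union
of at most `p ^ c` conics, then all but at most `p ^ (1 - c)` points of `A` lie on one of these
conics.
-/

set_option autoImplicit false

open Finset

namespace Pool.Agent.Results.MP_8dbdcc_co.ArcsAndConics

/-- `A ⊆ 𝔽_p²` has no three collinear points: every line contains at most two points of `A`. -/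
def NoThreeCollinear (p : ℕ) (A : Finset (ZMod p × ZMod p)) : Prop :=
  ∀ a b c : ZMod p, (a, b) ≠ (0, 0) → (A.filter (fun q => a * q.1 + b * q.2 = c)).card ≤ 2

/-- For a set `A ⊆ 𝔽_p²` without three collinear points and a family `F` of at most
`p ^ c` conics (possibly degenerate), either at most `p ^ (1 - c)` points of `A` lie on the union
of the conics or one of the conics contains all but at most `p ^ (1 - c)` points of `A`. -/
theorem result : ∃ c : ℝ, 0 < c ∧ c < 1 ∧
    ∃ N : ℕ, ∀ p : ℕ, p.Prime → N ≤ p →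
      ∀ A : Finset (ZMod p × ZMod p), NoThreeCollinear p A →
      ∀ F : Finset (MvPolynomial (Fin 2) (ZMod p)), (∀ f ∈ F, f ≠ 0 ∧ f.totalDegree ≤ 2) →
        (F.card : ℝ) ≤ (p : ℝ) ^ c →
        ((A.filter (fun q => ∃ f ∈ F, MvPolynomial.eval ![q.1, q.2] f = 0)).card : ℝ) ≤
            (p : ℝ) ^ (1 - c) ∨
          ∃ f ∈ F, ((A.filter (fun q => MvPolynomial.eval ![q.1, q.2] f ≠ 0)).card : ℝ) ≤
            (p : ℝ) ^ (1 - c) := by
  classical
  obtain ⟨N₁, hN₁⟩ := Pool.Agent.Lib.MP_8dbdcc_co.one_conic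
  refine ⟨1 / 60000, by norm_num, by norm_num, ?_⟩
  refine ⟨N₁, fun p hp hNp A hA F hF hFc => ?_⟩
  have hp1 : (1 : ℝ) ≤ p := by exact_mod_cast hp.one_lt.le
  have hp0 : (0 : ℝ) < p := by linarith
  by_cases hall : ∀ f ∈ F, ((A.filter (fun q => MvPolynomial.eval ![q.1, q.2] f = 0)).card : ℝ) ≤
      (p : ℝ) ^ (1 - 1 / 30000 : ℝ)
  · left
    have h1 : (A.filter (fun q => ∃ f ∈ F, MvPolynomial.eval ![q.1, q.2] f = 0)) ⊆
        F.biUnion fun f => A.filter (fun q => MvPolynomial.eval ![q.1, q.2] f = 0) := by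
      intro q hq
      rw [Finset.mem_filter] at hq
      obtain ⟨hqA, f, hf, hq0⟩ := hq
      rw [Finset.mem_biUnion]
      exact ⟨f, hf, Finset.mem_filter.2 ⟨hqA, hq0⟩⟩
    have h2 := (Finset.card_le_card h1).trans Finset.card_biUnion_le
    have h3 : ((A.filter (fun q => ∃ f ∈ F, MvPolynomial.eval ![q.1, q.2] f = 0)).card : ℝ) ≤
        ∑ f ∈ F, ((A.filter (fun q => MvPolynomial.eval ![q.1, q.2] f = 0)).card : ℝ) := by
      exact_mod_cast h2
    calc ((A.filter (fun q => ∃ f ∈ F, MvPolynomial.eval ![q.1, q.2] f = 0)).card : ℝ)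
        ≤ ∑ f ∈ F, ((A.filter (fun q => MvPolynomial.eval ![q.1, q.2] f = 0)).card : ℝ) := h3
      _ ≤ ∑ _f ∈ F, (p : ℝ) ^ (1 - 1 / 30000 : ℝ) := Finset.sum_le_sum hall
      _ = F.card * (p : ℝ) ^ (1 - 1 / 30000 : ℝ) := by rw [Finset.sum_const, nsmul_eq_mul]
      _ ≤ (p : ℝ) ^ (1 / 60000 : ℝ) * (p : ℝ) ^ (1 - 1 / 30000 : ℝ) :=
          mul_le_mul_of_nonneg_right hFc (by positivity)
      _ = (p : ℝ) ^ (1 - 1 / 60000 : ℝ) := by
          rw [← Real.rpow_add hp0]
          norm_num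
  · right
    push Not at hall
    obtain ⟨f, hf, hfc⟩ := hall
    refine ⟨f, hf, ?_⟩
    rcases hN₁ p hp hNp A hA f (hF f hf).1 (hF f hf).2 with h | h
    · exact absurd h (not_le.2 hfc)
    · exact h.trans (Real.rpow_le_rpow_of_exponent_le hp1 (by norm_num))

end Pool.Agent.Results.MP_8dbdcc_co.ArcsAndConics
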